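import Pool.Agent.H53.GM.Targets2
import Pool.Agent.H53.GM.Basic

/-!
# Forbidden coloured patterns: amalgamation of realizations of systems of types
-/

set_option autoImplicit false
set_option linter.unusedVariables false

namespace Pool.Agent.H77.GM

open Pool.Agent.H68.BP Pool.Agent.H58.SF Pool.Agent.H53.GC Pool.Agent.H53.GR Pool.Agent.H53.GM
open Classical

noncomputable section

section bb

variable {Q 𝒦 W X : Type}

/-- the tuple with the values `f x` at the places `pt x`, `x ∈ g`, and `a v` at the other places -/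
def bb (C : Sy Q 𝒦 W) (g : Finset W) (f : W → X) (a : Q → X) (v : Q) : X :=
  if h : ∃ x ∈ g, C.pt x = v then f h.choose else a v

theorem bb_pt {C : Sy Q 𝒦 W} {g : Finset W} {f : W → X} {a : Q → X}
    (hg : Set.InjOn C.pt (g : Set W)) {x : W} (hx : x ∈ g) : bb C g f a (C.pt x) = f x := by
  have h : ∃ y ∈ g, C.pt y = C.pt x := ⟨x, hx, rfl⟩
  unfold bb
  rw [dif_pos h]
  exact congrArg f (hg (Finset.mem_coe.2 h.choose_spec.1) (Finset.mem_coe.2 hx)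
    h.choose_spec.2)

theorem bb_not {C : Sy Q 𝒦 W} {g : Finset W} {f : W → X} {a : Q → X} {v : Q}
    (hv : ∀ x ∈ g, C.pt x ≠ v) : bb C g f a v = a v := by
  unfold bb
  rw [dif_neg]
  rintro ⟨x, hx, h⟩
  exact hv x hx h

theorem bb_cases (C : Sy Q 𝒦 W) (g : Finset W) (f : W → X) (a : Q → X) (v : Q) :
    (∃ x ∈ g, C.pt x = v ∧ bb C g f a v = f x) ∨
      ((∀ x ∈ g, C.pt x ≠ v) ∧ bb C g f a v = a v) := by
  by_cases h : ∃ x ∈ g, C.pt x = v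
  · left
    refine ⟨h.choose, h.choose_spec.1, h.choose_spec.2, ?_⟩
    unfold bb
    rw [dif_pos h]
  · right
    have h1 : ∀ x ∈ g, C.pt x ≠ v := fun x hx hxv => h ⟨x, hx, hxv⟩
    exact ⟨h1, bb_not h1⟩

end bb

section real

variable {τ : Sig} {N k : ℕ} {F : Set (Str τ (Fin N))} {I : Finset (Fin k)} {W W' : Type}

/-- The structure `M` with `f` and `a` realizes the system. -/
def RzS (N : ℕ) (I : Finset (Fin k)) (C : Sy (Fin k) (Ty τ N (Fin k)) W) (M : Str τ W')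
    (f : W → W') (a : Fin k → W') : Prop :=
  ∀ g t, C.gd g t → ∀ b : Fin k → W', (∀ v ∈ I, b v = a v) → (∀ x ∈ g, b (C.pt x) = f x) →
    rse (g.image C.pt ∪ I) (tp N M b) = t

/-- realization by blow-ups -/
theorem rz_blw (hBLW : Pool.Agent.H53.GM.T_BLW) {C : Sy (Fin k) (Ty τ N (Fin k)) W}
    {M : Str τ W'} {f : W → W'} {a : Fin k → W'} (h : RzS N I C M f a) {J : Type} [Nonempty J]
    (p : W → J) (q : Fin k → J) :
    RzS N I C (blw M J) (fun x => (f x, p x)) (fun v => (a v, q v)) := by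
  intro g t hg b hb1 hb2
  rw [(hBLW τ N ∅ W' J M inferInstance).2 (Fin k) b]
  refine h g t hg _ (fun v hv => ?_) (fun x hx => ?_)
  · rw [hb1 v hv]
  · rw [hb2 x hx]

theorem inj_bb {C : Sy (Fin k) (Ty τ N (Fin k)) W} {g : Finset W} {f : W → W'}
    {a : Fin k → W'} :
    Function.Injective (bb C g (fun x => (f x, (Sum.inl x : W ⊕ Fin k)))
      (fun v => (a v, Sum.inr v))) := by
  intro v w h
  rcases bb_cases C g (fun x => (f x, (Sum.inl x : W ⊕ Fin k))) (fun v => (a v, Sum.inr v)) v with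
    ⟨x, hx, hxv, h1⟩ | ⟨hv, h1⟩ <;>
  rcases bb_cases C g (fun x => (f x, (Sum.inl x : W ⊕ Fin k))) (fun v => (a v, Sum.inr v)) w with
    ⟨y, hy, hyw, h2⟩ | ⟨hw, h2⟩
  · rw [h1, h2] at h
    have h3 : x = y := Sum.inl.inj (congrArg Prod.snd h)
    rw [← hxv, ← hyw, h3]
  · rw [h1, h2] at h
    exact absurd (congrArg Prod.snd h) (by simp)
  · rw [h1, h2] at h
    exact absurd (congrArg Prod.snd h) (by simp)
  · rw [h1, h2] at h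
    exact Sum.inr.inj (congrArg Prod.snd h)

end real

/-- Row B3 -/
theorem pf_B3 (hTPB : Pool.Agent.H53.GM.T_TPB) (hBLW : Pool.Agent.H53.GM.T_BLW)
    (hAMG : Pool.Agent.H53.GM.T_AMG) : Pool.Agent.H53.GM.T_B3 := by
  intro τ N k F I hyp W _ C U₁ U₂ g₀ κ₀ hC hg₀ hmem hcov hG₁ hG₂
  obtain ⟨W₁, hW₁, M₁, f₁, a₁, hV₁, hR₁⟩ := hG₁
  obtain ⟨W₂, hW₂, M₂, f₂, a₂, hV₂, hR₂⟩ := hG₂
  rcases isEmpty_or_nonempty W with hem | hne
  · exact ⟨W₁, hW₁, M₁, f₁, a₁, hV₁, fun g t hg =>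
      hR₁ g t ⟨hg, fun x _ => hem.elim x⟩⟩
  -- blow up
  have hJ : Nonempty (W ⊕ Fin k) := inferInstance
  let F₁ : W → W₁ × (W ⊕ Fin k) := fun x => (f₁ x, Sum.inl x)
  let A₁ : Fin k → W₁ × (W ⊕ Fin k) := fun v => (a₁ v, Sum.inr v)
  let F₂ : W → W₂ × (W ⊕ Fin k) := fun x => (f₂ x, Sum.inl x)
  let A₂ : Fin k → W₂ × (W ⊕ Fin k) := fun v => (a₂ v, Sum.inr v)
  have R₁ : RzS N I (C.res U₁) (blw M₁ (W ⊕ Fin k)) F₁ A₁ :=
    rz_blw hBLW hR₁ (fun x => Sum.inl x) (fun v => Sum.inr v)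
  have R₂ : RzS N I (C.res U₂) (blw M₂ (W ⊕ Fin k)) F₂ A₂ :=
    rz_blw hBLW hR₂ (fun x => Sum.inl x) (fun v => Sum.inr v)
  have V₁ := (hBLW τ N F W₁ (W ⊕ Fin k) M₁ hJ).1 hV₁
  have V₂ := (hBLW τ N F W₂ (W ⊕ Fin k) M₂ hJ).1 hV₂
  have hdis : ∀ g t, C.gd g t → ∀ v ∈ I, ∀ x ∈ g, C.pt x ≠ v := by
    intro g t hg v hv x hx hxv
    exact Finset.disjoint_left.1 (hC.ok g t hg).1
      ((@Finset.mem_image W (Fin k) (fun a b => Classical.propDecidable (a = b)) C.pt g v).2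
        ⟨x, hx, hxv⟩) hv
  -- the tuples
  let B₁ := bb C g₀ F₁ A₁
  let B₂ := bb C g₀ F₂ A₂
  have t₁ : rse (g₀.image C.pt ∪ I) (tp N (blw M₁ (W ⊕ Fin k)) B₁) = κ₀ :=
    R₁ g₀ κ₀ ⟨hg₀, fun x hx => ((hmem x).1 hx).1⟩ B₁
      (fun v hv => bb_not (hdis g₀ κ₀ hg₀ v hv)) (fun x hx => bb_pt (hC.tr g₀ κ₀ hg₀) hx)
  have t₂ : rse (g₀.image C.pt ∪ I) (tp N (blw M₂ (W ⊕ Fin k)) B₂) = κ₀ :=
    R₂ g₀ κ₀ ⟨hg₀, fun x hx => ((hmem x).1 hx).2⟩ B₂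
      (fun v hv => bb_not (hdis g₀ κ₀ hg₀ v hv)) (fun x hx => bb_pt (hC.tr g₀ κ₀ hg₀) hx)
  have s₁ : tp N (blw M₁ (W ⊕ Fin k)) (fun j : ↥(g₀.image C.pt ∪ I) => B₁ j.1) ⊆
      tp N (blw M₂ (W ⊕ Fin k)) (fun j : ↥(g₀.image C.pt ∪ I) => B₂ j.1) :=
    ((hTPB τ N _ _ (Fin k) (Fin k) (blw M₁ (W ⊕ Fin k)) (blw M₂ (W ⊕ Fin k)) B₁).2.2.2 B₂
      (g₀.image C.pt ∪ I)).1 (by rw [t₁, t₂])
  have s₂ : tp N (blw M₂ (W ⊕ Fin k)) (fun j : ↥(g₀.image C.pt ∪ I) => B₂ j.1) ⊆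
      tp N (blw M₁ (W ⊕ Fin k)) (fun j : ↥(g₀.image C.pt ∪ I) => B₁ j.1) :=
    ((hTPB τ N _ _ (Fin k) (Fin k) (blw M₂ (W ⊕ Fin k)) (blw M₁ (W ⊕ Fin k)) B₂).2.2.2 B₁
      (g₀.image C.pt ∪ I)).1 (by rw [t₁, t₂])
  obtain ⟨P, e, he, hh₁, hh₂, hj, hVP, hP₂, hP₁⟩ := hAMG τ N F _ _ ↥(g₀.image C.pt ∪ I)
    (blw M₁ (W ⊕ Fin k)) (blw M₂ (W ⊕ Fin k)) (fun j => B₁ j.1) (fun j => B₂ j.1) hyp
    (fun i j h => Subtype.ext (inj_bb h)) (fun i j h => Subtype.ext (inj_bb h)) V₁ V₂ s₁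
  have hP₁' := hP₁ (Set.Subset.antisymm s₁ s₂)
  -- compatibility
  have cI : ∀ v ∈ I, e (A₁ v) = Sum.inr (A₂ v) := by
    intro v hv
    have h1 := hj ⟨v, Finset.mem_union_right _ hv⟩
    have h2 : B₁ v = A₁ v := bb_not (hdis g₀ κ₀ hg₀ v hv)
    have h3 : B₂ v = A₂ v := bb_not (hdis g₀ κ₀ hg₀ v hv)
    rw [← h2, ← h3]
    exact h1
  have cF : ∀ x ∈ g₀, e (F₁ x) = Sum.inr (F₂ x) := by
    intro x hx
    have h1 := hj ⟨C.pt x, Finset.mem_union_left _ (Finset.mem_image_of_mem _ hx)⟩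
    have h2 : B₁ (C.pt x) = F₁ x := bb_pt (hC.tr g₀ κ₀ hg₀) hx
    have h3 : B₂ (C.pt x) = F₂ x := bb_pt (hC.tr g₀ κ₀ hg₀) hx
    rw [← h2, ← h3]
    exact h1
  let f : W → (W₁ × (W ⊕ Fin k)) ⊕ (W₂ × (W ⊕ Fin k)) := fun x =>
    if x ∈ U₁ then e (F₁ x) else Sum.inr (F₂ x)
  have hf₁ : ∀ x ∈ U₁, f x = e (F₁ x) := fun x hx => if_pos hx
  have hf₂ : ∀ x ∈ U₂, f x = Sum.inr (F₂ x) := by
    intro x hx
    by_cases h : x ∈ U₁
    · rw [hf₁ x h]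
      exact cF x ((hmem x).2 ⟨h, hx⟩)
    · exact if_neg h
  refine ⟨(W₁ × (W ⊕ Fin k)) ⊕ (W₂ × (W ⊕ Fin k)), inferInstance, P, f,
    fun v => Sum.inr (A₂ v), hVP, fun g t hg b hb1 hb2 => ?_⟩
  rcases hcov g t hg with hU | hU
  · have h1 : rse (g.image C.pt ∪ I) (tp N P b) =
        rse (g.image C.pt ∪ I) (tp N P (fun v => e (bb C g F₁ A₁ v))) := by
      refine (hTPB τ N _ _ (Fin k) (Fin k) P P b).2.2.1 _ _ fun v hv => ?_
      rcases Finset.mem_union.1 hv with h2 | h2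
      · obtain ⟨x, hx, rfl⟩ := Finset.mem_image.1 h2
        rw [hb2 x hx, bb_pt (hC.tr g t hg) hx]
        exact hf₁ x (hU x hx)
      · rw [hb1 v h2, bb_not (hdis g t hg v h2)]
        exact (cI v h2).symm
    rw [h1, hP₁']
    exact R₁ g t ⟨hg, hU⟩ _ (fun v hv => bb_not (hdis g t hg v hv))
      (fun x hx => bb_pt (hC.tr g t hg) hx)
  · have h1 : rse (g.image C.pt ∪ I) (tp N P b) =
        rse (g.image C.pt ∪ I) (tp N P (fun v => Sum.inr (bb C g F₂ A₂ v))) := by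
      refine (hTPB τ N _ _ (Fin k) (Fin k) P P b).2.2.1 _ _ fun v hv => ?_
      rcases Finset.mem_union.1 hv with h2 | h2
      · obtain ⟨x, hx, rfl⟩ := Finset.mem_image.1 h2
        rw [hb2 x hx, bb_pt (hC.tr g t hg) hx]
        exact hf₂ x (hU x hx)
      · rw [hb1 v h2, bb_not (hdis g t hg v h2)]
    rw [h1, hP₂]
    exact R₂ g t ⟨hg, hU⟩ _ (fun v hv => bb_not (hdis g t hg v hv))
      (fun x hx => bb_pt (hC.tr g t hg) hx)

end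

end Pool.Agent.H77.GM
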